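import Pool.Agent.Helper1.KE.Defs
import Pool.Agent.Helper16.TW2

set_option autoImplicit false
set_option linter.style.haveILetI false

/-!
Project KE (MP_0b9e0b_ag), KE-3a: the function field of the curve `y ^ p - y = t γ x ^ a + x` as
the field of rational functions of `x` and `y`.
-/

namespace Pool.Agent.Helper94.KE

open Pool.Agent.Helper16 Polynomial
open Pool.Agent.Helper1.KE

theorem isAlgebraic_of_artinSchreier {R A : Type} [Field R] [Field A] [Algebra R A] (p : ℕ)
    (hp : 1 < p) (y : A) (h : IsAlgebraic R (y ^ p - y)) : IsAlgebraic R y := by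
  have h1 : (X ^ p - X : R[X]).natDegree = p := by
    rw [natDegree_sub_eq_left_of_natDegree_lt, natDegree_X_pow]
    rw [natDegree_X, natDegree_X_pow]
    exact hp
  refine IsAlgebraic.of_aeval (X ^ p - X : R[X]) (by omega) ?_ (by simpa using h)
  apply mem_nonZeroDivisors_of_ne_zero
  rw [Ne, leadingCoeff_eq_zero]
  intro h0
  rw [h0, natDegree_zero] at h1
  omega

theorem model_aux {k : Type} [Field k] (p a : ℕ) (hp : 1 < p) (γ : k) (hγ : γ ≠ 0)
    {L : Type} [Field L] [Algebra k L] (hL : IsFunctionField k L) (x : L)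
    (htr : Transcendental k x) (hadj : IntermediateField.adjoin k {x} = ⊤) :
    ∃ (N : Type) (_ : Field N) (_ : Algebra L N)
    (_ : Algebra k N) (_ : Algebra (RatFunc k) N) (_ : IsScalarTower k L N)
    (_ : IsScalarTower k (RatFunc k) N) (y : N), IsModel k p a γ x y := by
  have hx0 : x ≠ 0 := by
    rintro rfl
    exact htr (isAlgebraic_zero)
  set c : L := algebraMap k L γ * x ^ a with hc
  have hc0 : c ≠ 0 := mul_ne_zero (by rw [Ne, map_eq_zero]; exact hγ) (pow_ne_zero _ hx0)
  have hc0' : algebraMap L (RatFunc L) c ≠ 0 := by rw [Ne, map_eq_zero]; exact hc0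
  set Y : RatFunc L := RatFunc.X with hY
  have hYtr : Transcendental L Y := RatFunc.transcendental_X
  set τ : RatFunc L := (Y ^ p - Y - algebraMap L (RatFunc L) x) / algebraMap L (RatFunc L) c
    with hτ
  have hτtr : Transcendental k τ := by
    intro h
    have h1 : IsAlgebraic L τ := h.tower_top L
    apply hYtr
    apply isAlgebraic_of_artinSchreier p hp
    have h3 : Y ^ p - Y = τ * algebraMap L (RatFunc L) c + algebraMap L (RatFunc L) x := by
      rw [hτ, div_mul_cancel₀ _ hc0']
      ring
    rw [h3]
    exact (h1.mul (isAlgebraic_algebraMap c)).add (isAlgebraic_algebraMap x)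
  obtain ⟨N, _, _, _, _, _, _, e, heX, hN, -⟩ := exists_twist_algebra L hL τ hτtr
  refine ⟨N, inferInstance, inferInstance, inferInstance, inferInstance, inferInstance,
    inferInstance, e Y, ?_⟩
  refine ⟨hN, htr, hadj, ?_, ?_, ?_⟩
  · intro h
    apply hYtr
    have h2 := h.algHom e.symm.toAlgHom
    simpa using h2
  · have h1 := congrArg (IntermediateField.map (e : RatFunc L →ₐ[L] N)) (RatFunc.adjoin_X (K := L))
    rw [IntermediateField.adjoin_map, Set.image_singleton] at h1
    rw [← AlgHom.fieldRange_eq_map, AlgHom.fieldRange_eq_top.2 e.surjective] at h1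
    exact h1
  · have h1 : algebraMap k N γ * algebraMap L N x ^ a = algebraMap L N c := by
      rw [hc, map_mul, map_pow, ← IsScalarTower.algebraMap_apply k L N]
    rw [mul_assoc, h1, heX, ← e.commutes c, ← map_mul, hτ, div_mul_cancel₀ _ hc0', map_sub,
      map_sub, map_pow, e.commutes]
    ring

theorem model : ModelStmt := by
  intro k _ p a _ _ ha γ hγ
  obtain ⟨N, h1, h2, h3, h4, h5, h6, y, h⟩ := model_aux p a (Fact.out : p.Prime).one_lt γ hγ
    (isFunctionField_ratFunc k) RatFunc.X RatFunc.transcendental_X RatFunc.adjoin_X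
  exact ⟨RatFunc k, N, inferInstance, h1, inferInstance, h2, h3, h4, h5, h6, RatFunc.X, y, h⟩

end Pool.Agent.Helper94.KE
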