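import Pool.Agent.Helper94.KE.PushA
import Pool.Agent.Helper1.KL.General

set_option autoImplicit false
set_option linter.style.haveILetI false

/-!
Project KE (MP_0b9e0b_ag), part of KE-2: a place of `k(x, y)` over `k(t)` which is trivial on
`k(x)` is determined by the key of its specialised point.
-/

namespace Pool.Agent.Helper94.KE

open Pool.Agent.Helper16 Polynomial
open Pool.Agent.Helper1.KE
open Pool.Agent.Helper1.KL (key spec key_eq_iff)

section agree

variable {K N : Type} [Field K] [Field N] [Algebra K N]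

theorem res_mv {σ : Type} (v : Place K N) (z : σ → N) (hz : ∀ j, z j ∈ v.ring)
    (P : MvPolynomial σ K) : MvPolynomial.aeval z P ∈ v.ring ∧
      v.res (MvPolynomial.aeval z P) = MvPolynomial.aeval (fun j => v.res (z j)) P := by
  induction P using MvPolynomial.induction_on with
  | C c =>
    rw [MvPolynomial.aeval_C, MvPolynomial.aeval_C]
    exact ⟨v.ring.algebraMap_mem c, v.res_algebraMap c⟩
  | add P Q hP hQ =>
    rw [map_add, map_add]
    exact ⟨add_mem hP.1 hQ.1, by rw [v.res_add hP.1 hQ.1, hP.2, hQ.2]⟩
  | mul_X P i hP =>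
    rw [map_mul, map_mul, MvPolynomial.aeval_X, MvPolynomial.aeval_X]
    exact ⟨mul_mem hP.1 (hz i), by rw [v.res_mul hP.1 (hz i), hP.2]⟩

/-- Both places are nonnegative at `f`, and simultaneously positive. -/
def Agree (v v' : Place K N) (f : N) : Prop :=
  v.val f ≤ 1 ∧ v'.val f ≤ 1 ∧ (v.val f < 1 ↔ v'.val f < 1)

theorem Agree.one_iff {v v' : Place K N} {f : N} (h : Agree v v' f) :
    v.val f = 1 ↔ v'.val f = 1 := by
  obtain ⟨h1, h2, h3⟩ := h
  constructor
  · intro h4
    refine le_antisymm h2 ?_
    by_contra h5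
    rw [not_le, ← h3, h4] at h5
    exact lt_irrefl _ h5
  · intro h4
    refine le_antisymm h1 ?_
    by_contra h5
    rw [not_le, h3, h4] at h5
    exact lt_irrefl _ h5

theorem agree_of_mul {v v' : Place K N} {c f : N} (hc : v.val c = 1) (hc' : v'.val c = 1)
    (h : Agree v v' (c * f)) : Agree v v' f := by
  unfold Agree at h ⊢
  rwa [map_mul, map_mul, hc, hc', one_mul, one_mul] at h

theorem agree_mv {v v' : Place K N} (z : Fin 2 → N) (hz : ∀ j, z j ∈ v.ring)
    (hz' : ∀ j, z j ∈ v'.ring)
    (h : ∀ P : MvPolynomial (Fin 2) K, MvPolynomial.aeval (fun j => v.res (z j)) P = 0 ↔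
      MvPolynomial.aeval (fun j => v'.res (z j)) P = 0) (P : MvPolynomial (Fin 2) K) :
    Agree v v' (MvPolynomial.aeval z P) := by
  obtain ⟨h1, h2⟩ := res_mv v z hz P
  obtain ⟨h1', h2'⟩ := res_mv v' z hz' P
  refine ⟨h1, h1', ?_⟩
  rw [← v.res_eq_zero_iff h1, ← v'.res_eq_zero_iff h1', h2, h2']
  exact h P

end agree

section clear

variable {k L N : Type} [Field k] [Field L] [Field N] [Algebra k L] [Algebra L N] [Algebra k N]
  [Algebra (RatFunc k) N] [IsScalarTower k L N] [IsScalarTower k (RatFunc k) N]

/-- Denominators. -/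
theorem exists_frac {x : L} (htr : Transcendental k x)
    (hadj : IntermediateField.adjoin k {x} = ⊤) (b : L) :
    ∃ c d : k[X], c ≠ 0 ∧ (b ≠ 0 → d ≠ 0) ∧ aeval x c * b = aeval x d := by
  obtain ⟨e, he⟩ := exists_equiv x htr hadj
  have hal : ∀ q : k[X], e (algebraMap k[X] (RatFunc k) q) = aeval x q := by
    intro q
    induction q using Polynomial.induction_on' with
    | add p q hp hq => rw [map_add, map_add, map_add, hp, hq]
    | monomial n a =>
      rw [← Polynomial.C_mul_X_pow_eq_monomial, map_mul, map_mul, map_pow, RatFunc.algebraMap_X,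
        RatFunc.algebraMap_C, map_pow, he, map_mul, map_pow, aeval_X, aeval_C]
      congr 1
      exact e.commutes a
  set g := e.symm b with hg
  refine ⟨g.denom, g.num, g.denom_ne_zero, fun hb => ?_, ?_⟩
  · apply RatFunc.num_ne_zero
    intro h0
    apply hb
    have : b = e g := (e.apply_symm_apply b).symm
    rw [this, h0, map_zero]
  · rw [← hal, ← hal]
    have hb : b = e g := (e.apply_symm_apply b).symm
    rw [hb, ← map_mul]
    congr 1
    have h1 := RatFunc.num_div_denom g
    have h2 : algebraMap k[X] (RatFunc k) g.denom ≠ 0 := by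
      simpa using g.denom_ne_zero
    rw [div_eq_iff h2] at h1
    rw [mul_comm]
    exact h1.symm

/-- `c A(y)` as a polynomial in `x` and `y`. -/
theorem exists_clear {x : L} (htr : Transcendental k x)
    (hadj : IntermediateField.adjoin k {x} = ⊤) (y : N) (A : L[X]) :
    ∃ (c : k[X]) (Q : MvPolynomial (Fin 2) (RatFunc k)), c ≠ 0 ∧
      MvPolynomial.aeval ![algebraMap L N x, y] Q = aeval (algebraMap L N x) c * aeval y A := by
  have hq : ∀ q : k[X], MvPolynomial.aeval ![algebraMap L N x, y]
      (aeval (MvPolynomial.X 0 : MvPolynomial (Fin 2) (RatFunc k))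
        (q.map (algebraMap k (RatFunc k)))) = aeval (algebraMap L N x) q := by
    intro q
    rw [← Polynomial.aeval_algHom_apply, MvPolynomial.aeval_X]
    change aeval (algebraMap L N x) (q.map (algebraMap k (RatFunc k))) = _
    rw [aeval_map_algebraMap]
  induction A using Polynomial.induction_on' with
  | add A B hA hB =>
    obtain ⟨c, Q, hc, hQ⟩ := hA
    obtain ⟨c', Q', hc', hQ'⟩ := hB
    refine ⟨c * c', Q * aeval (MvPolynomial.X 0) (c'.map (algebraMap k (RatFunc k))) +
      Q' * aeval (MvPolynomial.X 0) (c.map (algebraMap k (RatFunc k))), mul_ne_zero hc hc', ?_⟩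
    rw [map_add, map_mul, map_mul, hq, hq, hQ, hQ', map_mul, map_add]
    ring
  | monomial n b =>
    obtain ⟨c, d, hc, -, hcd⟩ := exists_frac htr hadj b
    refine ⟨c, aeval (MvPolynomial.X 0) (d.map (algebraMap k (RatFunc k))) *
      MvPolynomial.X 1 ^ n, hc, ?_⟩
    rw [map_mul, hq, map_pow, MvPolynomial.aeval_X, aeval_monomial, ← mul_assoc]
    have h1 : aeval (algebraMap L N x) d = aeval (algebraMap L N x) c * algebraMap L N b := by
      rw [aeval_algebraMap_apply, aeval_algebraMap_apply, ← map_mul, hcd]
    rw [h1]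
    rfl

end clear

theorem val_y_le {K N : Type} [Field K] [Field N] [Algebra K N] (v : Place K N) {p : ℕ}
    (hp : 1 < p) {y c : N} (h : y ^ p - y = c) (hc : v.val c ≤ 1) : v.val y ≤ 1 := by
  by_contra h1
  rw [not_le] at h1
  have h2 : y ^ p = c + y := by rw [← h]; ring
  have h3 : v.val y ^ p ≤ v.val y := by
    rw [← map_pow, h2]
    exact (v.val.map_add _ _).trans (max_le (hc.trans h1.le) le_rfl)
  exact absurd (lt_self_pow₀ h1 hp) (not_lt.2 h3)

theorem place_unique {k : Type} [Field k] {p a : ℕ} [Fact p.Prime] {γ : k}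
    {L N : Type} [Field L] [Field N] [Algebra k L] [Algebra L N] [Algebra k N]
    [Algebra (RatFunc k) N] [IsScalarTower k L N] [IsScalarTower k (RatFunc k) N] {x : L} {y : N}
    (hM : IsModel k p a γ x y) (v v' : Place (RatFunc k) N)
    (hv : ∀ b : L, b ≠ 0 → v.val (algebraMap L N b) = 1)
    (h : key (RatFunc k) (spec v (pt (algebraMap L N x) y)) =
      key (RatFunc k) (spec v' (pt (algebraMap L N x) y))) : v = v' := by
  classical
  have hp : 1 < p := (Fact.out : p.Prime).one_lt
  have hx0 : x ≠ 0 := by
    rintro rfl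
    exact hM.trx isAlgebraic_zero
  have hkc : ∀ (w : Place (RatFunc k) N) (c : k), w.val (algebraMap k N c) ≤ 1 := by
    intro w c
    rw [IsScalarTower.algebraMap_apply k (RatFunc k) N]
    exact w.val_algebraMap_le _
  have hX : v.val (algebraMap L N x) ≤ 1 := (hv x hx0).le
  have hy : v.val y ≤ 1 := by
    refine val_y_le v hp hM.eq ((v.val.map_add _ _).trans (max_le ?_ hX))
    rw [map_mul, map_mul, map_pow]
    exact mul_le_one' (mul_le_one' (v.val_algebraMap_le _) (hkc v γ)) (pow_le_one' hX a)
  rw [key_eq_iff] at h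
  obtain ⟨hn, hP⟩ := h
  have hs : ∀ (w : Place (RatFunc k) N) (j : Fin 2),
      spec w (pt (algebraMap L N x) y) j = none ↔ ¬ w.val (![algebraMap L N x, y] j) ≤ 1 := by
    intro w j
    have h1 : spec w (pt (algebraMap L N x) y) j =
        if ![algebraMap L N x, y] j ∈ w.ring then some (w.res (![algebraMap L N x, y] j))
        else none := by
      fin_cases j <;> rfl
    rw [h1]
    by_cases h2 : ![algebraMap L N x, y] j ∈ w.ring
    · rw [if_pos h2]
      have h3 : w.val (![algebraMap L N x, y] j) ≤ 1 := h2
      simp [h3]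
    · rw [if_neg h2]
      have h3 : ¬ w.val (![algebraMap L N x, y] j) ≤ 1 := h2
      simp only [h3, not_false_eq_true]
  have hz : ∀ j, ![algebraMap L N x, y] j ∈ v.ring := by
    intro j
    fin_cases j
    · exact hX
    · exact hy
  have hz' : ∀ j, ![algebraMap L N x, y] j ∈ v'.ring := by
    intro j
    have h1 := hn j
    rw [hs v j, hs v' j, not_iff_not] at h1
    exact h1.1 (hz j)
  have hgd : ∀ (w : Place (RatFunc k) N), (∀ j, ![algebraMap L N x, y] j ∈ w.ring) →
      (fun j => (spec w (pt (algebraMap L N x) y) j).getD 0) =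
        fun j => w.res (![algebraMap L N x, y] j) := by
    intro w hw
    funext j
    have h1 : spec w (pt (algebraMap L N x) y) j =
        if ![algebraMap L N x, y] j ∈ w.ring then some (w.res (![algebraMap L N x, y] j))
        else none := by
      fin_cases j <;> rfl
    rw [h1, if_pos (hw j)]
    rfl
  rw [hgd v hz, hgd v' hz'] at hP
  have hag := agree_mv (v := v) (v' := v') _ hz hz' hP
  -- elements of `k[x]`
  have hcx : ∀ c : k[X], c ≠ 0 → v.val (aeval (algebraMap L N x) c) = 1 ∧
      v'.val (aeval (algebraMap L N x) c) = 1 := by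
    intro c hc
    have h1 : v.val (aeval (algebraMap L N x) c) = 1 := by
      rw [aeval_algebraMap_apply]
      apply hv
      intro h0
      exact hc ((transcendental_iff.1 hM.trx) c h0)
    refine ⟨h1, ?_⟩
    have h2 := hag (aeval (MvPolynomial.X 0 : MvPolynomial (Fin 2) (RatFunc k))
        (c.map (algebraMap k (RatFunc k))))
    rw [← Polynomial.aeval_algHom_apply, MvPolynomial.aeval_X] at h2
    change Agree v v' (aeval (algebraMap L N x) (c.map (algebraMap k (RatFunc k)))) at h2
    rw [aeval_map_algebraMap] at h2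
    exact h2.one_iff.1 h1
  have hA : ∀ A : L[X], Agree v v' (aeval y A) := by
    intro A
    obtain ⟨c, Q, hc, hQ⟩ := exists_clear hM.trx hM.adjx y A
    obtain ⟨h1, h2⟩ := hcx c hc
    apply agree_of_mul h1 h2
    rw [← hQ]
    exact hag Q
  -- all elements
  have hle : ∀ f : N, v.val f ≤ 1 → v'.val f ≤ 1 := by
    intro f hf
    obtain ⟨e, he⟩ := exists_equiv y hM.tr_y hM.adjy
    have hal : ∀ q : L[X], e (algebraMap L[X] (RatFunc L) q) = aeval y q := by
      intro q
      induction q using Polynomial.induction_on' with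
      | add p q hp hq => rw [map_add, map_add, map_add, hp, hq]
      | monomial n a =>
        rw [← Polynomial.C_mul_X_pow_eq_monomial, map_mul, map_mul, map_pow, RatFunc.algebraMap_X,
          RatFunc.algebraMap_C, map_pow, he, map_mul, map_pow, aeval_X, aeval_C]
        congr 1
        exact e.commutes a
    set g := e.symm f with hg
    have hfg : f = e g := (e.apply_symm_apply f).symm
    have h1 : f = aeval y g.num / aeval y g.denom := by
      rw [← hal, ← hal, ← map_div₀, RatFunc.num_div_denom, ← hfg]
    have hden : aeval y g.denom ≠ 0 := by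
      rw [← hal]
      simpa using g.denom_ne_zero
    obtain ⟨α, β, hαβ⟩ := RatFunc.isCoprime_num_denom g
    have h2 := congrArg (aeval y) hαβ
    rw [map_add, map_mul, map_mul, map_one] at h2
    have hd : v.val (aeval y g.denom) = 1 := by
      by_contra hne
      have hlt : v.val (aeval y g.denom) < 1 := lt_of_le_of_ne (hA g.denom).1 hne
      have hnum : v.val (aeval y g.num) = v.val f * v.val (aeval y g.denom) := by
        rw [← map_mul, h1, div_mul_cancel₀ _ hden]
      have hnlt : v.val (aeval y g.num) < 1 := by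
        rw [hnum, mul_comm]
        exact mul_lt_one_of_lt_of_le hlt hf
      have h3 : v.val (1 : N) < 1 := by
        rw [← h2]
        refine v.val.map_add_lt ?_ ?_
        · rw [map_mul, mul_comm]
          exact mul_lt_one_of_lt_of_le hnlt (hA α).1
        · rw [map_mul, mul_comm]
          exact mul_lt_one_of_lt_of_le hlt (hA β).1
      rw [map_one] at h3
      exact lt_irrefl _ h3
    have hd' : v'.val (aeval y g.denom) = 1 := (hA g.denom).one_iff.1 hd
    rw [h1, map_div₀, hd', div_one]
    exact (hA g.num).2.1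
  exact (Place.ext_val (valuation_eq_of_le v'.val v.val v'.surj v.surj fun a ha => hle a ha)).symm

end Pool.Agent.Helper94.KE
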