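import Pool.Agent.Helper94.KE.PushA
import Pool.Agent.Helper94.BBNorm
import Pool.Agent.Helper1.KL.General

set_option autoImplicit false
set_option linter.style.haveILetI false

/-!
Project KE (MP_0b9e0b_ag), KE-3b: the image of a divisor under the map to the model.
-/

namespace Pool.Agent.Helper94.KE

open Pool.Agent.Helper16 Polynomial
open Pool.Agent.Helper1.KE
open Pool.Agent.Helper1.KL (key spec)

theorem finite_of_ff {K N M : Type} [Field K] [Field N] [Field M] [Algebra K N] [Algebra N M]
    [Algebra K M] [IsScalarTower K N M] (hN : IsFunctionField K N) (hM : IsFunctionField K M) :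
    FiniteDimensional N M := by
  have h1 := trdeg_add_eq K N (A := M)
  rw [hN.2, hM.2] at h1
  have h2 : Algebra.trdeg N M = 0 := by
    have h3 : (1 : Cardinal) + Algebra.trdeg N M = 1 + 0 := by rw [h1, add_zero]
    exact Cardinal.eq_of_add_eq_add_left h3 Cardinal.one_lt_aleph0
  haveI := trdeg_eq_zero_iff.1 h2
  haveI := hM.1
  haveI : Algebra.EssFiniteType N M := Algebra.EssFiniteType.of_comp K N M
  exact finiteDimensional_of_fg_of_isAlgebraic N M

theorem place_ext {K N : Type} [Field K] [Field N] [Algebra K N] (u v : Place K N)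
    (h : ∀ a : N, u.val a ≤ 1 ↔ v.val a ≤ 1) : u = v :=
  Place.ext_val (valuation_eq_of_le u.val v.val u.surj v.surj fun a ha => (h a).2 ha)

/-- Every place of a finite extension restricts. -/
theorem exists_restr {K N M : Type} [Field K] [Field N] [Field M] [Algebra K N] [Algebra N M]
    [Algebra K M] [IsScalarTower K N M] (hN : IsFunctionField K N) [FiniteDimensional N M]
    (v : Place K M) : ∃ u : Place K N, (∀ a : N, u.val a ≤ 1 ↔ v.val (algebraMap N M a) ≤ 1) ∧
      (∀ a : N, u.val a < 1 ↔ v.val (algebraMap N M a) < 1) := by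
  obtain ⟨b, hb0, hb⟩ : ∃ b : N, b ≠ 0 ∧ v.val (algebraMap N M b) ≠ 1 := by
    by_contra hcon
    push Not at hcon
    let v' : Place N M := ⟨v.val, v.surj, hcon⟩
    obtain ⟨f, hf0, hf⟩ := v.exists_uniformizer
    have h1 : v'.val f = 1 :=
      v'.val_eq_one_of_algebraic (Algebra.IsAlgebraic.isAlgebraic f) hf0
    have h2 : v.val f = 1 := h1
    rw [hf] at h2
    exact absurd h2 exp_neg_one_lt.ne
  exact Place.exists_restrict (k := K) (K := K) (L := N) (N := M) v hN b hb0 hb

theorem key_restr {K N M σ : Type} [Field K] [Field N] [Field M] [Algebra K N] [Algebra N M]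
    [Algebra K M] [IsScalarTower K N M] (v : Place K M) (u : Place K N)
    (h1 : ∀ a : N, u.val a ≤ 1 ↔ v.val (algebraMap N M a) ≤ 1)
    (h2 : ∀ a : N, u.val a < 1 ↔ v.val (algebraMap N M a) < 1) (z : σ → Option N) :
    key K (spec v fun j => (z j).map (algebraMap N M)) = key K (spec u z) := by
  obtain ⟨ρ, hρ1, hρ2⟩ := Place.exists_residue_hom (k := K) (K := K) (L := N) (N := M) v u h1 h2
  let ρ' : u.resField →ₐ[K] v.resField := { ρ with commutes' := fun c => hρ2 c }
  have h3 : (spec v fun j => (z j).map (algebraMap N M)) = fun j => (spec u z j).map ρ' := by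
    funext j
    unfold spec
    rcases hj : z j with _ | a
    · simp [hj]
    · simp only [hj, Option.map_some, Option.bind_some]
      by_cases ha : u.val a ≤ 1
      · rw [if_pos (show algebraMap N M a ∈ v.ring from (h1 a).1 ha),
          if_pos (show a ∈ u.ring from ha), Option.map_some, ← hρ1 a ha]
        rfl
      · rw [if_neg (show ¬ algebraMap N M a ∈ v.ring from fun h => ha ((h1 a).2 h)),
          if_neg (show ¬ a ∈ u.ring from ha)]
        rfl
  rw [h3]
  exact Pool.Agent.Helper1.KL.key_map ρ' _

/-- The image of a divisor is the divisor of the norm. -/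
theorem dk_norm {K N M σ : Type} [Field K] [Field N] [Field M] [Algebra K N] [Algebra N M]
    [Algebra K M] [IsScalarTower K N M] (hN : IsFunctionField K N) (hM : IsFunctionField K M)
    [FiniteDimensional N M] (z : σ → Option N) (g : M) (hg : g ≠ 0) (T : Finset (Place K M))
    (hT : ∀ v, v ∈ T ↔ v.ord g ≠ 0) (S : Finset (Place K N))
    (hS : ∀ v, v ∈ S ↔ v.ord (Algebra.norm N g) ≠ 0) :
    dk (fun j => (z j).map (algebraMap N M)) g T = dk z (Algebra.norm N g) S := by
  classical
  choose r hr1 hr2 using fun v : Place K M => exists_restr (N := N) hN v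
  choose TT hTT1 hTT2 using fun w : Place K N => Pool.Agent.Helper94.BB.norm_formula hN hM w g hg
  unfold dk
  have hk : ∀ v : Place K M, key K (spec v fun j => (z j).map (algebraMap N M)) =
      key K (spec (r v) z) := fun v => key_restr v (r v) (hr1 v) (hr2 v) z
  simp only [hk]
  have hmap : ∀ v ∈ T, r v ∈ T.image r ∪ S := fun v hv =>
    Finset.mem_union_left _ (Finset.mem_image_of_mem r hv)
  rw [← Finset.sum_fiberwise_of_maps_to hmap]
  have hterm : ∀ w : Place K N, (∑ v ∈ T with r v = w, Finsupp.single (key K (spec (r v) z))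
      ((v.ord g * (v.deg : ℤ) : ℤ) : ℚ)) = Finsupp.single (key K (spec w z))
        ((w.ord (Algebra.norm N g) * (w.deg : ℤ) : ℤ) : ℚ) := by
    intro w
    have h1 : ∑ v ∈ T with r v = w, Finsupp.single (key K (spec (r v) z))
        ((v.ord g * (v.deg : ℤ) : ℤ) : ℚ) = ∑ v ∈ T with r v = w,
          Finsupp.single (key K (spec w z)) ((v.ord g * (v.deg : ℤ) : ℤ) : ℚ) := by
      refine Finset.sum_congr rfl fun v hv => ?_
      rw [(Finset.mem_filter.1 hv).2]
    rw [h1, ← hTT2 w]
    have h2 : T.filter (fun v => r v = w) ⊆ TT w := by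
      intro v hv
      rw [hTT1]
      intro a
      rw [← hr1 v a, (Finset.mem_filter.1 hv).2]
    have h3 : ∑ v ∈ T with r v = w,
          Finsupp.single (key K (spec w z)) ((v.ord g * (v.deg : ℤ) : ℤ) : ℚ) =
        ∑ v ∈ TT w, Finsupp.single (key K (spec w z)) ((v.ord g * (v.deg : ℤ) : ℤ) : ℚ) := by
      refine Finset.sum_subset h2 fun v hv hv' => ?_
      have h4 : r v = w := place_ext _ _ fun a => by
        rw [hr1 v a]
        exact (hTT1 w v).1 hv a
      have h5 : v.ord g = 0 := by
        by_contra h6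
        exact hv' (Finset.mem_filter.2 ⟨(hT v).2 h6, h4⟩)
      rw [h5]
      simp
    rw [h3, Int.cast_sum]
    exact (map_sum (Finsupp.singleAddHom (key K (spec w z))) _ _).symm
  rw [Finset.sum_congr rfl fun w _ => hterm w]
  symm
  refine Finset.sum_subset Finset.subset_union_right fun w _ hw => ?_
  have h1 : w.ord (Algebra.norm N g) = 0 := by
    by_contra h0
    exact hw ((hS w).2 h0)
  rw [h1]
  simp

theorem push : PushStmt := by
  intro k _ p a _ _ ha γ hγ L N _ _ _ _ _ _ _ _ x y h M _ _ hM u w huw hu g hg T hT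
  obtain ⟨φ, hφx, hφy⟩ := exists_hom hγ h hM huw hu
  letI algN : Algebra N M := φ.toRingHom.toAlgebra
  haveI st : IsScalarTower (RatFunc k) N M :=
    IsScalarTower.of_algebraMap_eq fun b => (φ.commutes b).symm
  haveI : FiniteDimensional N M := finite_of_ff h.ff hM
  obtain ⟨S, hS, -⟩ := h.ff.product_formula (Algebra.norm N g)
  refine ⟨Algebra.norm N g, S, by rw [Ne, Algebra.norm_eq_zero_iff]; exact hg, hS, ?_⟩
  rw [← dk_norm h.ff hM (pt (algebraMap L N x) y) g hg T hT S hS]
  congr 1
  funext j
  have hx' : algebraMap N M (algebraMap L N x) = u := hφx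
  have hy' : algebraMap N M y = w := hφy
  fin_cases j
  · change some u = Option.map (algebraMap N M) (some (algebraMap L N x))
    rw [Option.map_some, hx']
  · change some w = Option.map (algebraMap N M) (some y)
    rw [Option.map_some, hy']

end Pool.Agent.Helper94.KE
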