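import Pool.Agent.Helper94.KE.Model

set_option autoImplicit false
set_option linter.style.haveILetI false

/-!
Project KE (MP_0b9e0b_ag), KE-3b: the map from the model to a function field with a point of
the curve.
-/

namespace Pool.Agent.Helper94.KE

open Pool.Agent.Helper16 Polynomial
open Pool.Agent.Helper1.KE

/-- `k(x)` for transcendental `x`. -/
theorem exists_equiv {k L : Type} [Field k] [Field L] [Algebra k L] (x : L)
    (htr : Transcendental k x) (hadj : IntermediateField.adjoin k {x} = ⊤) :
    ∃ e : RatFunc k ≃ₐ[k] L, e RatFunc.X = x := by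
  have h1 : Function.Surjective (ratLift x htr) := by
    rw [← AlgHom.fieldRange_eq_top, eq_top_iff, ← hadj, IntermediateField.adjoin_le_iff,
      Set.singleton_subset_iff]
    exact ⟨RatFunc.X, ratLift_X x htr⟩
  exact ⟨AlgEquiv.ofBijective (ratLift x htr) ⟨(ratLift x htr).toRingHom.injective, h1⟩,
    ratLift_X x htr⟩

/-- Two homomorphisms from `k(t)` which agree on `k` and at `t` are equal. -/
theorem ratFunc_hom_ext {k M : Type} [Field k] [Field M] (f g : RatFunc k →+* M)
    (h1 : ∀ a : k, f (algebraMap k (RatFunc k) a) = g (algebraMap k (RatFunc k) a))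
    (h2 : f RatFunc.X = g RatFunc.X) : f = g := by
  apply IsLocalization.ringHom_ext (nonZeroDivisors k[X])
  apply Polynomial.ringHom_ext
  · intro a
    have := h1 a
    rw [IsScalarTower.algebraMap_apply k k[X] (RatFunc k)] at this
    exact this
  · simpa using h2

/-- `t` is transcendental over `k(u)` when `u` is transcendental over `k(t)`. -/
theorem algebraic_all {k L M : Type} [Field k] [Field L] [Field M] [Algebra k L] [Algebra L M]
    [Algebra k M] [Algebra (RatFunc k) M] [IsScalarTower k L M] [IsScalarTower k (RatFunc k) M]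
    (hM : IsFunctionField (RatFunc k) M) (x : L)
    (hx : Transcendental (RatFunc k) (algebraMap L M x))
    (ht : IsAlgebraic L (algebraMap (RatFunc k) M RatFunc.X)) (z : M) : IsAlgebraic L z := by
  let E : IntermediateField L M := algebraicClosure L M
  have hmem : ∀ a : M, a ∈ E ↔ IsAlgebraic L a := fun a => mem_algebraicClosure_iff
  have hK : ∀ b : RatFunc k, algebraMap (RatFunc k) M b ∈ E := by
    intro b
    have hb : b ∈ IntermediateField.adjoin k {(RatFunc.X : RatFunc k)} := by
      rw [RatFunc.adjoin_X]; trivial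
    induction hb using IntermediateField.adjoin_induction with
    | mem a ha =>
      rw [Set.mem_singleton_iff.1 ha, hmem]
      exact ht
    | algebraMap a =>
      rw [← IsScalarTower.algebraMap_apply k (RatFunc k) M, IsScalarTower.algebraMap_apply k L M]
      exact E.algebraMap_mem _
    | add a b _ _ ha hb =>
      rw [map_add]
      exact add_mem ha hb
    | inv a _ ha =>
      rw [map_inv₀]
      exact inv_mem ha
    | mul a b _ _ ha hb =>
      rw [map_mul]
      exact mul_mem ha hb
  let E' : IntermediateField (RatFunc k) M :=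
    { E.toSubfield with algebraMap_mem' := hK }
  have hle : IntermediateField.adjoin (RatFunc k) {algebraMap L M x} ≤ E' := by
    rw [IntermediateField.adjoin_le_iff, Set.singleton_subset_iff]
    exact E.algebraMap_mem x
  haveI := hM.finiteDimensional _ hx
  have h1 : IsIntegral (IntermediateField.adjoin (RatFunc k) {algebraMap L M x}) z :=
    Algebra.IsIntegral.isIntegral z
  -- the minimal polynomial over `E`
  have h2 : IsAlgebraic E z := by
    obtain ⟨P, hP, hPz⟩ := h1.isAlgebraic
    let ι : IntermediateField.adjoin (RatFunc k) {algebraMap L M x} →+* E :=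
      { toFun := fun a => ⟨(a : M), hle a.2⟩
        map_one' := rfl
        map_mul' := fun _ _ => rfl
        map_zero' := rfl
        map_add' := fun _ _ => rfl }
    refine ⟨P.map ι, (Polynomial.map_ne_zero_iff ι.injective).2 hP, ?_⟩
    rw [aeval_def, eval₂_map]
    rw [aeval_def] at hPz
    exact hPz
  haveI : Algebra.IsAlgebraic L E := algebraicClosure.isAlgebraic L M
  exact h2.restrictScalars L

/-- The map from the model. -/
theorem exists_hom {k : Type} [Field k] {p a : ℕ}
    {γ : k} (hγ : γ ≠ 0)
    {L N : Type} [Field L] [Field N] [Algebra k L] [Algebra L N] [Algebra k N]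
    [Algebra (RatFunc k) N] [IsScalarTower k L N] [IsScalarTower k (RatFunc k) N] {x : L} {y : N}
    (h : IsModel k p a γ x y)
    {M : Type} [Field M] [Algebra (RatFunc k) M] (hM : IsFunctionField (RatFunc k) M)
    {u w : M} (huw : w ^ p - w = algebraMap (RatFunc k) M RatFunc.X *
      algebraMap (RatFunc k) M (RatFunc.C γ) * u ^ a + u) (hu : Transcendental (RatFunc k) u) :
    ∃ φ : N →ₐ[RatFunc k] M, φ (algebraMap L N x) = u ∧ φ y = w := by
  letI algk : Algebra k M :=
    ((algebraMap (RatFunc k) M).comp (algebraMap k (RatFunc k))).toAlgebra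
  haveI st : IsScalarTower k (RatFunc k) M := IsScalarTower.of_algebraMap_eq fun _ => rfl
  have hu0 : u ≠ 0 := by
    rintro rfl
    exact hu isAlgebraic_zero
  have huk : Transcendental k u := fun h0 => hu (h0.tower_top _)
  obtain ⟨e1, he1⟩ := exists_equiv x h.trx h.adjx
  let ψ : L →ₐ[k] M := (ratLift u huk).comp e1.symm.toAlgHom
  have hψx : ψ x = u := by
    change ratLift u huk (e1.symm x) = u
    rw [← he1, AlgEquiv.symm_apply_apply, ratLift_X]
  letI algL : Algebra L M := ψ.toRingHom.toAlgebra
  haveI stL : IsScalarTower k L M := IsScalarTower.of_algebraMap_eq fun b => (ψ.commutes b).symm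
  have hψ : ∀ b : L, algebraMap L M b = ψ b := fun b => rfl
  have htrd : Algebra.trdeg k L = 1 := by
    rw [← e1.trdeg_eq]
    exact (isFunctionField_ratFunc k).2
  have hC : ∀ c : k, algebraMap (RatFunc k) M (RatFunc.C c) = algebraMap k M c := by
    intro c
    rfl
  have htr : ¬ IsAlgebraic L (algebraMap (RatFunc k) M RatFunc.X) := by
    intro ht
    have h1 : ∀ z : M, IsAlgebraic L z := algebraic_all hM x (by rw [hψ, hψx]; exact hu) ht
    haveI : Algebra.IsAlgebraic L M := ⟨h1⟩
    have h2 := trdeg_add_eq k L (A := M)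
    rw [htrd, trdeg_eq_zero (R := L) (A := M), add_zero] at h2
    have h3 := trdeg_add_eq k (RatFunc k) (A := M)
    rw [hM.2, (isFunctionField_ratFunc k).2, ← h2] at h3
    have h4 : (2 : Cardinal) = 1 := by rw [← h3]; norm_num
    norm_num at h4
  have hγ' : algebraMap (RatFunc k) M (RatFunc.C γ) * u ^ a ≠ 0 :=
    mul_ne_zero (by rw [hC, Ne, map_eq_zero]; exact hγ) (pow_ne_zero _ hu0)
  have hwtr : Transcendental L w := by
    intro hw
    apply htr
    have hua : IsAlgebraic L u := by
      rw [← hψx, ← hψ]
      exact isAlgebraic_algebraMap x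
    have hg : IsAlgebraic L (algebraMap (RatFunc k) M (RatFunc.C γ)) := by
      rw [hC, IsScalarTower.algebraMap_apply k L M]
      exact isAlgebraic_algebraMap _
    have h1 : algebraMap (RatFunc k) M RatFunc.X =
        (w ^ p - w - u) * (algebraMap (RatFunc k) M (RatFunc.C γ) * u ^ a)⁻¹ := by
      rw [huw, mul_assoc, add_sub_cancel_right, mul_assoc, mul_inv_cancel₀ hγ', mul_one]
    rw [h1]
    exact (((hw.pow p).sub hw).sub hua).mul (hg.mul (hua.pow a)).inv
  obtain ⟨e2, he2⟩ := exists_equiv y h.tr_y h.adjy
  let φ : N →ₐ[L] M := (ratLift w hwtr).comp e2.symm.toAlgHom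
  have hφy : φ y = w := by
    change ratLift w hwtr (e2.symm y) = w
    rw [← he2, AlgEquiv.symm_apply_apply, ratLift_X]
  have hφx : φ (algebraMap L N x) = u := by
    rw [φ.commutes, hψ, hψx]
  have hφk : ∀ c : k, φ (algebraMap k N c) = algebraMap k M c := by
    intro c
    rw [IsScalarTower.algebraMap_apply k L N, φ.commutes, ← IsScalarTower.algebraMap_apply k L M]
  have hφt : φ (algebraMap (RatFunc k) N RatFunc.X) = algebraMap (RatFunc k) M RatFunc.X := by
    have h1 := congrArg φ h.eq
    rw [map_sub, map_add, map_mul, map_mul, map_pow, map_pow, hφx, hφy, hφk, huw, ← hC] at h1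
    have h2 := add_right_cancel h1
    rw [mul_assoc, mul_assoc] at h2
    exact (mul_right_cancel₀ hγ' h2).symm
  have hall := ratFunc_hom_ext (φ.toRingHom.comp (algebraMap (RatFunc k) N))
    (algebraMap (RatFunc k) M) (fun c => by
      change φ (algebraMap (RatFunc k) N (algebraMap k (RatFunc k) c)) = _
      rw [← IsScalarTower.algebraMap_apply k (RatFunc k) N, hφk]
      rfl) hφt
  refine ⟨{ φ.toRingHom with commutes' := fun b => ?_ }, hφx, hφy⟩
  exact RingHom.congr_fun hall b

end Pool.Agent.Helper94.KE
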